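import Pool.Agent.BEP.Stmts

/-!
# Squad BEP, row CYB: sharp decay in cylinders (helper65)
-/

set_option autoImplicit false

namespace Pool.Agent.BEP.H65

open Set Filter Topology MeasureTheory
open Pool.Agent Pool.Agent.BE01 Pool.Agent.BEG
open Pool.Agent.BEO (BB)
open Pool.Agent.BER (GO Sh)

theorem li_univ (d : ℕ) : li (univ : Set (En d ≃ₗᵢ[ℝ] En d)) = GO d := by
  ext g
  constructor
  · intro h
    exact h.2
  · intro h
    exact ⟨mem_univ _, h⟩

theorem norm_inv_smul {d : ℕ} {R : ℝ} (hR : 0 < R) (x : En d) : ‖R⁻¹ • x‖ = ‖x‖ / R := by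
  rw [norm_smul, Real.norm_eq_abs, abs_of_pos (inv_pos.2 hR)]
  field_simp

theorem sc_BB (d : ℕ) {R : ℝ} (hR : 0 < R) : Sc R (BB d 1) = BB d R := by
  ext x
  show R⁻¹ • x ∈ Metric.ball (0 : En d) 1 ↔ x ∈ Metric.ball (0 : En d) R
  rw [mem_ball_zero_iff, mem_ball_zero_iff, norm_inv_smul hR, div_lt_one hR]

theorem sc_Sh (d : ℕ) {R : ℝ} (r s : ℝ) (hR : 0 < R) : Sc R (Sh d r s) = Sh d (R * r) (R * s) := by
  ext x
  show (r < ‖R⁻¹ • x‖ ∧ ‖R⁻¹ • x‖ < s) ↔ (R * r < ‖x‖ ∧ ‖x‖ < R * s)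
  rw [norm_inv_smul hR, lt_div_iff₀ hR, div_lt_iff₀ hR, mul_comm r R, mul_comm s R]

theorem cyb (cyr : CyrStmt) (blp : BlpStmt) (blt : BltStmt) (shp : ShpStmt)
    (syb : Pool.Agent.BER.SybStmt) : CybStmt := by
  intro d m O hd hm hO
  refine ⟨?_, ?_⟩
  · by_cases h3 : d = 3
    · subst h3
      obtain ⟨C, hC, h⟩ := cyr 3 m (BB 3 1) O ∅ hd hm (syb.1 3 1 (by norm_num) one_pos).1 hO
        (by
          rintro g ⟨hg, _⟩
          exact absurd hg (notMem_empty _))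
        (fun p _ => blt p)
      refine ⟨C, hC, ?_⟩
      intro R a p hR hRC ha hp
      have h1 := h R a p hR hRC ha hp
      rwa [sc_BB 3 hR] at h1
    · have h1 := syb.1 d 1 (by omega) one_pos
      obtain ⟨C, hC, h⟩ := cyr d m (BB d 1) O univ hd hm h1.1 hO
        (by rw [li_univ]; exact h1.2) (fun p hp => blp d p hd h3 hp)
      refine ⟨C, hC, ?_⟩
      intro R a p hR hRC ha hp
      have h1 := h R a p hR hRC ha hp
      rwa [sc_BB d hR] at h1
  · intro h3 r s hr hrs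
    have h1 := syb.2.1 d r s (by omega) hr hrs
    obtain ⟨C, hC, h⟩ := cyr d m (Sh d r s) O univ hd hm h1.1 hO
      (by rw [li_univ]; exact h1.2) (fun p hp => shp d p r s hd h3 hp hr hrs)
    refine ⟨C, hC, ?_⟩
    intro R a p hR hRC ha hp
    have h1 := h R a p hR hRC ha hp
    rwa [sc_Sh d r s hR] at h1

end Pool.Agent.BEP.H65
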